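import Pool.Agent.R755.Tr.Main

/-!
# Gaussian monotonicity of the modified Banaszczyk transform at every level
-/

set_option autoImplicit false

namespace Pool.Agent.Results.MP_681294_gt.MonotoneTransform

open MeasureTheory ProbabilityTheory Set
open scoped Pointwise Classical

/-- The chord of `K` through `y` in the direction of `u`, parametrized by arclength. -/
def chord {n : ℕ} (K : Set (EuclideanSpace ℝ (Fin n))) (u y : EuclideanSpace ℝ (Fin n)) : Set ℝ :=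
  {t : ℝ | y + t • (‖u‖⁻¹ • u) ∈ K}

/-- `Z_K(u)`: the points `y` orthogonal to `u` whose chord has one dimensional Gaussian measure
at least `p_r = γ₁([-r,r])`, where `r = |u|`. -/
def heavy {n : ℕ} (K : Set (EuclideanSpace ℝ (Fin n))) (u : EuclideanSpace ℝ (Fin n)) :
    Set (EuclideanSpace ℝ (Fin n)) :=
  {y | inner ℝ u y = 0 ∧
    gaussianReal 0 1 (Icc (-‖u‖) ‖u‖) ≤ gaussianReal 0 1 (chord K u y)}

/-- The transform `K ∘ u`; it is `K` for `u = 0`, and otherwise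
`(K + [-u,u]) ∩ (Z_K(u) + ℝ u)`. -/
noncomputable def transform {n : ℕ} (K : Set (EuclideanSpace ℝ (Fin n)))
    (u : EuclideanSpace ℝ (Fin n)) : Set (EuclideanSpace ℝ (Fin n)) :=
  if u = 0 then K else (K + segment ℝ (-u) u) ∩ (heavy K u + {x | ∃ t : ℝ, x = t • u})

theorem fixed_level (p : ℝ) (hp : 0 < p) : ∃ ρ : ℝ, 0 < ρ ∧ ρ ≤ 1 ∧
    ∀ (n : ℕ), 2 ≤ n → ∀ (K : Set (EuclideanSpace ℝ (Fin n))), IsClosed K → Convex ℝ K →
      p ≤ (stdGaussian (EuclideanSpace ℝ (Fin n)) K).toReal →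
      ∀ u : EuclideanSpace ℝ (Fin n), ‖u‖ ≤ ρ →
        stdGaussian (EuclideanSpace ℝ (Fin n)) K ≤
          stdGaussian (EuclideanSpace ℝ (Fin n)) (transform K u) := by
  obtain ⟨ρ, h0, h1, h⟩ := Pool.Agent.R755.Tr.compare p hp
  refine ⟨ρ, h0, h1, ?_⟩
  intro n hn K hK hc hKp u hu
  obtain ⟨M, rfl⟩ : ∃ M, n = M + 1 := ⟨n - 1, by omega⟩
  exact h M K hK hc hKp u hu

/-- The answer is yes: there is a strictly increasing function `r : (0,1) → (0,∞)` such that for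
every `n ≥ 2`, every closed convex `K` with `0 < γ_n(K) < 1` and every `u` with
`|u| ≤ r(γ_n(K))` one has `γ_n(K ∘ u) ≥ γ_n(K)`; and for every `p` in `(0,1)` there is a radius
`ρ > 0` which works for all `n ≥ 2` and all closed convex `K` with `γ_n(K) ≥ p`. -/
theorem result :
    (∃ r : ℝ → ℝ, StrictMonoOn r (Ioo 0 1) ∧ (∀ p ∈ Ioo (0 : ℝ) 1, 0 < r p) ∧
      ∀ (n : ℕ), 2 ≤ n → ∀ (K : Set (EuclideanSpace ℝ (Fin n))), IsClosed K → Convex ℝ K →
        0 < (stdGaussian (EuclideanSpace ℝ (Fin n)) K).toReal →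
        (stdGaussian (EuclideanSpace ℝ (Fin n)) K).toReal < 1 →
        ∀ u : EuclideanSpace ℝ (Fin n),
          ‖u‖ ≤ r ((stdGaussian (EuclideanSpace ℝ (Fin n)) K).toReal) →
          stdGaussian (EuclideanSpace ℝ (Fin n)) K ≤
            stdGaussian (EuclideanSpace ℝ (Fin n)) (transform K u)) ∧
    (∀ p ∈ Ioo (0 : ℝ) 1, ∃ ρ : ℝ, 0 < ρ ∧
      ∀ (n : ℕ), 2 ≤ n → ∀ (K : Set (EuclideanSpace ℝ (Fin n))), IsClosed K → Convex ℝ K →
        p ≤ (stdGaussian (EuclideanSpace ℝ (Fin n)) K).toReal →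
        ∀ u : EuclideanSpace ℝ (Fin n), ‖u‖ ≤ ρ →
          stdGaussian (EuclideanSpace ℝ (Fin n)) K ≤
            stdGaussian (EuclideanSpace ℝ (Fin n)) (transform K u)) := by
  constructor
  · -- admissible radii at level `p`
    set A : ℝ → Set ℝ := fun p => {ρ : ℝ | 0 < ρ ∧ ρ ≤ 1 ∧
      ∀ (n : ℕ), 2 ≤ n → ∀ (K : Set (EuclideanSpace ℝ (Fin n))), IsClosed K → Convex ℝ K →
        p ≤ (stdGaussian (EuclideanSpace ℝ (Fin n)) K).toReal →
        ∀ u : EuclideanSpace ℝ (Fin n), ‖u‖ ≤ ρ →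
          stdGaussian (EuclideanSpace ℝ (Fin n)) K ≤
            stdGaussian (EuclideanSpace ℝ (Fin n)) (transform K u)} with hA
    have hne : ∀ p, 0 < p → (A p).Nonempty := fun p hp => fixed_level p hp
    have hbd : ∀ p, BddAbove (A p) := fun p => ⟨1, fun ρ hρ => hρ.2.1⟩
    have hmono : ∀ p p', p ≤ p' → A p ⊆ A p' := by
      intro p p' hpp ρ hρ
      exact ⟨hρ.1, hρ.2.1, fun n hn K hK hc hKp => hρ.2.2 n hn K hK hc (hpp.trans hKp)⟩
    have hpos : ∀ p, 0 < p → 0 < sSup (A p) := by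
      intro p hp
      obtain ⟨ρ, hρ⟩ := hne p hp
      exact hρ.1.trans_le (le_csSup (hbd p) hρ)
    refine ⟨fun p => p * sSup (A p), ?_, ?_, ?_⟩
    · intro p hp p' hp' hpp
      have h1 : sSup (A p) ≤ sSup (A p') := csSup_le_csSup (hbd p') (hne p hp.1) (hmono p p' hpp.le)
      have h2 := hpos p' hp'.1
      calc p * sSup (A p) ≤ p * sSup (A p') := mul_le_mul_of_nonneg_left h1 hp.1.le
        _ < p' * sSup (A p') := mul_lt_mul_of_pos_right hpp h2
    · intro p hp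
      exact mul_pos hp.1 (hpos p hp.1)
    · intro n hn K hK hc h0 h1 u hu
      set p := (stdGaussian (EuclideanSpace ℝ (Fin n)) K).toReal with hp
      have h2 : p * sSup (A p) < sSup (A p) := by
        have := hpos p h0
        nlinarith
      obtain ⟨ρ, hρ, hρ2⟩ := exists_lt_of_lt_csSup (hne p h0) h2
      exact hρ.2.2 n hn K hK hc le_rfl u (hu.trans hρ2.le)
  · intro p hp
    obtain ⟨ρ, h0, -, h⟩ := fixed_level p hp.1
    exact ⟨ρ, h0, h⟩

end Pool.Agent.Results.MP_681294_gt.MonotoneTransform
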